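import Pool.Agent.H159R3.War.LogCurve
import Pool.Agent.H159R3.Exp.BLV

/-!
Integral points and entire curves on affine varieties of small Waring rank.
-/

set_option autoImplicit false

namespace Pool.Agent.H159R3.WarAff

open MvPolynomial IsDedekindDomain Pool.Agent.H159R3.War
open scoped NumberField

variable {n : ℕ}

/-- the sum of the `d`-th powers of the affine-linear polynomials with coefficients `ℓ k` -/
noncomputable def powerSum {s : ℕ} (ℓ : Fin s → Fin (n + 1) → ℂ) (d : ℕ) :
    MvPolynomial (Fin n) ℂ :=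
  ∑ k, (C (ℓ k 0) + ∑ j : Fin n, C (ℓ k j.succ) * X j) ^ d

/-- `F` is a sum of `s` powers `ℓ ^ d` of affine-linear polynomials with `(s - 1) ^ 2 ≤ d`. -/
def Waring (F : MvPolynomial (Fin n) ℂ) : Prop :=
  ∃ (d s : ℕ) (ℓ : Fin s → Fin (n + 1) → ℂ), 0 < d ∧ (s - 1) ^ 2 ≤ d ∧ F = powerSum ℓ d

/-- `F` is a sum of `s` powers `ℓ ^ d` of affine-linear polynomials with `s ^ 2 ≤ d`. -/
def WaringLog (F : MvPolynomial (Fin n) ℂ) : Prop :=
  ∃ (d s : ℕ) (ℓ : Fin s → Fin (n + 1) → ℂ), 0 < d ∧ s ^ 2 ≤ d ∧ F = powerSum ℓ d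

/-- homogenisation -/
noncomputable def homSum {s : ℕ} (ℓ : Fin s → Fin (n + 1) → ℂ) (d : ℕ) :
    MvPolynomial (Fin (n + 1)) ℂ := ∑ k, (∑ j, C (ℓ k j) * X j) ^ d

theorem eval_homSum {s : ℕ} (ℓ : Fin s → Fin (n + 1) → ℂ) (d : ℕ) (x : Fin n → ℂ) :
    eval (Fin.cons 1 x : Fin (n + 1) → ℂ) (homSum ℓ d) = eval x (powerSum ℓ d) := by
  unfold homSum powerSum
  rw [map_sum, map_sum]
  refine Finset.sum_congr rfl fun k _ => ?_
  rw [map_pow, map_pow, map_sum, map_add, map_sum, Fin.sum_univ_succ]
  congr 1
  simp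

theorem log_X0 : SmallWaringLog (X 0 : MvPolynomial (Fin (n + 1)) ℂ) 1 := by
  refine ⟨1, fun _ => Pi.single 0 1, one_pos, by norm_num, ?_⟩
  rw [Fin.sum_univ_one, pow_one, Finset.sum_eq_single 0]
  · simp
  · intro j _ hj
    have h1 : (Pi.single (0 : Fin (n + 1)) (1 : ℂ) : Fin (n + 1) → ℂ) j = 0 :=
      Pi.single_eq_of_ne hj _
    simp only [h1, map_zero, zero_mul]
  · simp

/-- The punctured line of an entire curve in an affine variety. -/
theorem affine_line {ι : Type} {m : ℕ} (F : ι → MvPolynomial (Fin n) ℂ)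
    (Q : Fin m → MvPolynomial (Fin n) ℂ) (hF : ∀ i, Waring (F i)) (hQ : ∀ j, WaringLog (Q j))
    (f : ℂ → Fin n → ℂ) (hf : Differentiable ℂ f) (hfF : ∀ z i, eval (f z) (F i) = 0)
    (hfQ : ∀ z j, eval (f z) (Q j) ≠ 0) (z0 w : ℂ) (hw : f z0 ≠ f w) :
    ∃ (a b c : Fin n → ℂ) (k : Fin m → ℕ), (∀ j, a j + c j = f z0 j) ∧
      (∃ z, (fun j => a j + z * b j + Complex.exp z * c j) ≠ f z0) ∧
      (∀ z i, eval (fun j => a j + z * b j + Complex.exp z * c j) (F i) = 0) ∧
      ∀ z j, eval (fun j => a j + z * b j + Complex.exp z * c j) (Q j)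
        = eval (f z0) (Q j) * Complex.exp z ^ k j := by
  classical
  choose dF sF ℓF hdF hsF hFe using hF
  choose dQ sQ ℓQ hdQ hsQ hQe using hQ
  let f' : ℂ → Fin (n + 1) → ℂ := fun z => Fin.cons 1 (f z)
  have hf' : Differentiable ℂ f' := by
    rw [differentiable_pi]
    intro j
    refine Fin.cases ?_ (fun j => ?_) j
    · exact differentiable_const _
    · simp only [f', Fin.cons_succ]
      rw [differentiable_pi] at hf
      exact hf j
  let Q' : Option (Fin m) → MvPolynomial (Fin (n + 1)) ℂ := fun j => match j with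
    | none => X 0
    | some j => homSum (ℓQ j) (dQ j)
  let d' : Option (Fin m) → ℕ := fun j => match j with
    | none => 1
    | some j => dQ j
  have hw' : LinearIndependent ℂ ![f' z0, f' w] := by
    rw [LinearIndependent.pair_iff]
    intro s t hst
    have h0 : s + t = 0 := by
      have := congrFun hst 0
      simpa [f'] using this
    have hs : s = -t := by linear_combination h0
    obtain ⟨j, hj⟩ := Function.ne_iff.mp hw
    have h1 : s * f z0 j + t * f w j = 0 := by
      have := congrFun hst j.succ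
      simpa [f'] using this
    have ht : t = 0 := by
      rw [hs] at h1
      have h2 : t * (f w j - f z0 j) = 0 := by linear_combination h1
      exact (mul_eq_zero.mp h2).resolve_right (sub_ne_zero.mpr (Ne.symm hj))
    exact ⟨by rw [hs, ht, neg_zero], ht⟩
  obtain ⟨v, u, T, ⟨hli, hline⟩, hpun⟩ := log_line (fun i => homSum (ℓF i) (dF i))
    (fun i => ⟨dF i, sF i, ℓF i, hdF i, hsF i, rfl⟩) Q' d' (by
      intro j
      rcases j with _ | j
      · exact log_X0
      · exact ⟨sQ j, ℓQ j, hdQ j, hsQ j, rfl⟩) f' hf' (by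
      intro z i
      simp only [f']
      rw [eval_homSum, ← hFe]
      exact hfF z i) (by
      intro z j
      rcases j with _ | j
      · simp [f', Q']
      · simp only [f', Q']
        rw [eval_homSum, ← hQe]
        exact hfQ z j) z0 w hw'
  -- a common statement for the different kinds of lines
  have key : ∀ (s t : ℂ → ℂ) (s0 s1 s2 t0 t1 t2 : ℂ) (k : Fin m → ℕ),
      (∀ z, s z = s0 + z * s1 + Complex.exp z * s2) → (∀ z, t z = t0 + z * t1 + Complex.exp z * t2) →
      (∀ z, s z * 1 + t z * v 0 = 1) → s 0 = 1 → t 0 = 0 → t 1 ≠ 0 →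
      (∀ z j, eval (s z • f' z0 + t z • v) (Q' (some j))
        = eval (f' z0) (Q' (some j)) * Complex.exp z ^ k j) →
      ∃ (a b c : Fin n → ℂ) (k : Fin m → ℕ), (∀ j, a j + c j = f z0 j) ∧
      (∃ z, (fun j => a j + z * b j + Complex.exp z * c j) ≠ f z0) ∧
      (∀ z i, eval (fun j => a j + z * b j + Complex.exp z * c j) (F i) = 0) ∧
      ∀ z j, eval (fun j => a j + z * b j + Complex.exp z * c j) (Q j)
        = eval (f z0) (Q j) * Complex.exp z ^ k j := by
    intro s t s0 s1 s2 t0 t1 t2 k hs ht hone hs0 ht0 ht1 hQk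
    have hpt : ∀ z, s z • f' z0 + t z • v = (Fin.cons 1 (fun j : Fin n =>
        (s0 * f z0 j + t0 * v j.succ) + z * (s1 * f z0 j + t1 * v j.succ)
          + Complex.exp z * (s2 * f z0 j + t2 * v j.succ)) : Fin (n + 1) → ℂ) := by
      intro z
      funext j
      refine Fin.cases ?_ (fun j => ?_) j
      · simp only [Pi.add_apply, Pi.smul_apply, smul_eq_mul, f', Fin.cons_zero]
        exact hone z
      · simp only [Pi.add_apply, Pi.smul_apply, smul_eq_mul, f', Fin.cons_succ]
        rw [hs, ht]
        ring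
    refine ⟨fun j => s0 * f z0 j + t0 * v j.succ, fun j => s1 * f z0 j + t1 * v j.succ,
      fun j => s2 * f z0 j + t2 * v j.succ, k, ?_, ⟨1, ?_⟩, ?_, ?_⟩
    · intro j
      have h1 := hs 0
      have h2 := ht 0
      rw [hs0] at h1
      rw [ht0] at h2
      simp only [zero_mul, add_zero, Complex.exp_zero, one_mul] at h1 h2
      linear_combination (-f z0 j) * h1 - v j.succ * h2
    · intro h0
      have h1 := hpt 1
      rw [h0] at h1
      have h2 := LinearIndependent.pair_iff.mp hli (s 1 - 1) (t 1) (by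
        rw [sub_smul, one_smul]
        have : s 1 • f' z0 + t 1 • v = f' z0 := h1
        rw [← sub_eq_zero] at this
        rw [← this]
        abel)
      exact ht1 h2.2
    · intro z i
      have h1 := hline i (s z) (t z)
      rw [hpt z, eval_homSum, ← hFe] at h1
      exact h1
    · intro z j
      have h1 := hQk z j
      rw [hpt z] at h1
      simp only [Q', f'] at h1
      rw [eval_homSum, eval_homSum, ← hQe] at h1
      exact h1
  have hf0 : f' z0 0 = 1 := by simp [f']
  have hX0 : ∀ s t : ℂ, eval (s • f' z0 + t • v) (Q' none) = s * 1 + t * v 0 := by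
    intro s t
    simp only [Q', eval_X, Pi.add_apply, Pi.smul_apply, smul_eq_mul, hf0]
  have hX1 : eval (f' z0) (Q' none) = 1 := by
    simp only [Q', eval_X, hf0]
  have hd'0 : d' none = 1 := rfl
  have he1 : (Complex.exp 1 - 1) ≠ 0 := by
    intro h0
    have h1 : Complex.exp ((1 : ℝ) : ℂ) = ((1 : ℝ) : ℂ) := by
      push_cast
      linear_combination h0
    rw [← Complex.ofReal_exp] at h1
    have h2 : Real.exp 1 = 1 := Complex.ofReal_injective h1
    have := Real.exp_eq_one_iff 1 |>.mp h2
    norm_num at this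
  by_cases hu : u = 0
  · -- an affine line
    have hall : ∀ j (s t : ℂ), eval (s • f' z0 + t • v) (Q' j) = eval (f' z0) (Q' j) * s ^ d' j := by
      intro j s t
      by_cases hj : j ∈ T
      · rw [(hpun j s t).1 hj, hu, zero_mul, add_zero]
      · exact (hpun j s t).2 hj
    refine key (fun _ => 1) (fun z => z) 1 0 0 0 1 0 (fun _ => 0) (by intro z; ring)
      (by intro z; ring) ?_ rfl rfl one_ne_zero ?_
    · intro z
      have h1 := hall none 1 z
      rw [hX0, hX1, one_pow] at h1
      linear_combination h1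
    · intro z j
      have h1 := hall (some j) 1 z
      rw [one_pow] at h1
      rw [pow_zero]
      exact h1
  by_cases hT : (none : Option (Fin m)) ∈ T
  · refine key (fun z => Complex.exp z) (fun z => (1 - Complex.exp z) / u) 0 0 1 (1 / u) 0 (-(1 / u))
      (fun j => if some j ∈ T then 0 else dQ j) (by intro z; ring) (by intro z; ring) ?_
      (by simp) (by simp) ?_ ?_
    · intro z
      rw [← hX0, (hpun none _ _).1 hT, hX1, hd'0, pow_one, one_mul]
      field_simp
      ring
    · refine div_ne_zero ?_ hu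
      intro h0
      exact he1 (by linear_combination -h0)
    · intro z j
      by_cases hj : some j ∈ T
      · rw [(hpun (some j) _ _).1 hj]
        simp only [if_pos hj, pow_zero]
        have : Complex.exp z + u * ((1 - Complex.exp z) / u) = 1 := by
          field_simp
          ring
        rw [this, one_pow]
      · rw [(hpun (some j) _ _).2 hj]
        simp only [if_neg hj]
        rfl
  · refine key (fun _ => 1) (fun z => (Complex.exp z - 1) / u) 1 0 0 (-(1 / u)) 0 (1 / u)
      (fun j => if some j ∈ T then dQ j else 0) (by intro z; ring) (by intro z; ring) ?_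
      rfl (by simp) (div_ne_zero he1 hu) ?_
    · intro z
      rw [← hX0, (hpun none _ _).2 hT, hX1, one_mul, one_pow]
    · intro z j
      by_cases hj : some j ∈ T
      · rw [(hpun (some j) _ _).1 hj]
        simp only [if_pos hj]
        have : 1 + u * ((Complex.exp z - 1) / u) = Complex.exp z := by
          field_simp
          ring
        rw [this]
      · rw [(hpun (some j) _ _).2 hj]
        simp only [if_neg hj, pow_zero, one_pow]

end Pool.Agent.H159R3.WarAff
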