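import Pool.Agent.H159R3.War.Affine

/-!
Integral points and entire curves on affine varieties of small Waring rank.
-/

set_option autoImplicit false

namespace Pool.Agent.H159R3.WarAff

open MvPolynomial IsDedekindDomain Pool.Agent.H159R3.War
open scoped NumberField

variable {K : Type} [Field K] {ι ι' : Type} {n m : ℕ}

/-- `V(O_S)` for the scheme `V` over `𝓞 K`: the open part of the closed subscheme `F i = 0` of
affine `n`-space over `𝓞 K` on which all `Q j` are invertible. -/
def intPoints (F : ι → MvPolynomial (Fin n) (𝓞 K)) (Q : Fin m → MvPolynomial (Fin n) (𝓞 K))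
    (L : Type) [Field L] [NumberField L] [Algebra K L] (S : Set (HeightOneSpectrum (𝓞 L))) :
    Set (Fin n → L) :=
  {x | (∀ j, x j ∈ S.integer L) ∧
    (∀ i, eval₂ ((algebraMap K L).comp (algebraMap (𝓞 K) K)) x (F i) = 0) ∧
    ∀ j, eval₂ ((algebraMap K L).comp (algebraMap (𝓞 K) K)) x (Q j) ≠ 0 ∧
      (eval₂ ((algebraMap K L).comp (algebraMap (𝓞 K) K)) x (Q j))⁻¹ ∈ S.integer L}

/-- Condition (ii): `V(O_S) ∖ V'(O_S)` is always finite. Here `V'` is the closed subscheme of `V`
given by the equations `G j = 0`. -/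
def FinitelyManyIntegral (F : ι → MvPolynomial (Fin n) (𝓞 K))
    (Q : Fin m → MvPolynomial (Fin n) (𝓞 K)) (G : ι' → MvPolynomial (Fin n) (𝓞 K)) : Prop :=
  ∀ (L : Type) [Field L] [NumberField L] [Algebra K L] (S : Set (HeightOneSpectrum (𝓞 L))),
    S.Finite → {x ∈ intPoints F Q L S |
      ∃ j, eval₂ ((algebraMap K L).comp (algebraMap (𝓞 K) K)) x (G j) ≠ 0}.Finite

/-- Condition (i): every entire curve in `V(ℂ)` lies in `V'(ℂ)`. -/
def EntireCurvesIn (σ : K →+* ℂ) (F : ι → MvPolynomial (Fin n) (𝓞 K))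
    (Q : Fin m → MvPolynomial (Fin n) (𝓞 K)) (G : ι' → MvPolynomial (Fin n) (𝓞 K)) : Prop :=
  ∀ f : ℂ → Fin n → ℂ, Differentiable ℂ f →
    (∀ z i, eval₂ (σ.comp (algebraMap (𝓞 K) K)) (f z) (F i) = 0) →
    (∀ z j, eval₂ (σ.comp (algebraMap (𝓞 K) K)) (f z) (Q j) ≠ 0) → (∃ z w, f z ≠ f w) →
    ∀ z j, eval₂ (σ.comp (algebraMap (𝓞 K) K)) (f z) (G j) = 0

/-- the graph of the inverses of the `Q j` -/
noncomputable def graph (F : ι → MvPolynomial (Fin n) (𝓞 K))
    (Q : Fin m → MvPolynomial (Fin n) (𝓞 K)) : ι ⊕ Fin m → MvPolynomial (Fin (n + m)) (𝓞 K)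
  | .inl i => rename (Fin.castAdd m) (F i)
  | .inr j => X (Fin.natAdd n j) * rename (Fin.castAdd m) (Q j) - 1

theorem graph_fin (F : ι → MvPolynomial (Fin n) (𝓞 K)) (Q : Fin m → MvPolynomial (Fin n) (𝓞 K))
    (G : ι' → MvPolynomial (Fin n) (𝓞 K)) (h : FinitelyManyIntegral F Q G) :
    Exp.FinitelyManyIntegral (graph F Q) (fun j => rename (Fin.castAdd m) (G j)) := by
  intro L _ _ _ S hS
  set φ : 𝓞 K →+* L := (algebraMap K L).comp (algebraMap (𝓞 K) K) with hφ
  have hren : ∀ (x : Fin (n + m) → L) (P : MvPolynomial (Fin n) (𝓞 K)),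
      eval₂ φ x (rename (Fin.castAdd m) P) = eval₂ φ (fun j => x (Fin.castAdd m j)) P := by
    intro x P
    rw [eval₂_rename]
    rfl
  have hinv : ∀ x ∈ Exp.intPoints (graph F Q) L S, ∀ j,
      x (Fin.natAdd n j) * eval₂ φ (fun j => x (Fin.castAdd m j)) (Q j) = 1 := by
    intro x hx j
    have h1 := hx.2 (.inr j)
    simp only [graph] at h1
    rw [eval₂_sub, eval₂_mul, eval₂_X, eval₂_one, hren] at h1
    exact sub_eq_zero.mp h1
  refine Set.Finite.of_injOn (f := fun x : Fin (n + m) → L => fun j => x (Fin.castAdd m j))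
    ?_ ?_ (h L S hS)
  · intro x hx
    have hQ := hinv x hx.1
    refine ⟨⟨fun j => hx.1.1 _, fun i => ?_, fun j => ?_⟩, ?_⟩
    · have h1 := hx.1.2 (.inl i)
      simp only [graph] at h1
      rw [← hφ, hren] at h1
      exact h1
    · have h1 := hQ j
      have h2 : eval₂ φ (fun j => x (Fin.castAdd m j)) (Q j) ≠ 0 := right_ne_zero_of_mul_eq_one h1
      refine ⟨h2, ?_⟩
      have h3 : (eval₂ φ (fun j => x (Fin.castAdd m j)) (Q j))⁻¹ = x (Fin.natAdd n j) := by
        rw [inv_eq_of_mul_eq_one_left h1]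
      rw [← hφ, h3]
      exact hx.1.1 _
    · by_contra hcon
      push Not at hcon
      apply hx.2
      refine ⟨hx.1.1, fun j => ?_⟩
      rw [← hφ, hren]
      exact hcon j
  · intro x hx y hy hxy
    have hxy' : (fun j => x (Fin.castAdd m j)) = fun j => y (Fin.castAdd m j) := hxy
    funext k
    refine Fin.addCases (fun j => congrFun hxy' j) (fun j => ?_) k
    have h1 := hinv x hx.1 j
    have h2 := hinv y hy.1 j
    rw [hxy'] at h1
    have h3 : eval₂ φ (fun j => y (Fin.castAdd m j)) (Q j) ≠ 0 := right_ne_zero_of_mul_eq_one h2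
    exact mul_right_cancel₀ h3 (h1.trans h2.symm)

/-- The implication (ii) ⟹ (i) for affine varieties of small Waring rank. -/
theorem main [NumberField K] (F : ι → MvPolynomial (Fin n) (𝓞 K))
    (Q : Fin m → MvPolynomial (Fin n) (𝓞 K)) (G : ι' → MvPolynomial (Fin n) (𝓞 K)) (σ : K →+* ℂ)
    (hF : ∀ i, Waring (map (σ.comp (algebraMap (𝓞 K) K)) (F i)))
    (hQ : ∀ j, WaringLog (map (σ.comp (algebraMap (𝓞 K) K)) (Q j)))
    (hfin : FinitelyManyIntegral F Q G) : EntireCurvesIn σ F Q G := by
  intro f hf hfF hfQ hnc z0 i'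
  by_contra hG
  set φ : 𝓞 K →+* ℂ := σ.comp (algebraMap (𝓞 K) K) with hφ
  obtain ⟨w, hw⟩ : ∃ w, f z0 ≠ f w := by
    by_contra hcon
    push Not at hcon
    obtain ⟨z, w, hzw⟩ := hnc
    exact hzw ((hcon z).symm.trans (hcon w))
  obtain ⟨a, b, c, k, hac, ⟨z1, hz1⟩, hgF, hgQ⟩ := affine_line (fun i => map φ (F i))
    (fun j => map φ (Q j)) hF hQ f hf (fun z i => by rw [← eval₂_eq_eval_map]; exact hfF z i)
    (fun z j => by rw [← eval₂_eq_eval_map]; exact hfQ z j) z0 w hw
  set g : ℂ → Fin n → ℂ := fun z j => a j + z * b j + Complex.exp z * c j with hg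
  have hg0 : g 0 = f z0 := by
    funext j
    simp only [hg, zero_mul, add_zero, Complex.exp_zero, one_mul]
    exact hac j
  let y : ℂ → Fin m → ℂ := fun z j => (eval (f z0) (map φ (Q j)))⁻¹ * Complex.exp (-z) ^ k j
  let g' : ℂ → Fin (n + m) → ℂ := fun z => Fin.append (g z) (y z)
  have hren : ∀ (z : ℂ) (P : MvPolynomial (Fin n) (𝓞 K)),
      eval₂ φ (g' z) (rename (Fin.castAdd m) P) = eval (g z) (map φ P) := by
    intro z P
    rw [eval₂_rename, eval₂_eq_eval_map]
    congr 2
    funext j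
    simp only [g', Function.comp, Fin.append_left]
  have hg'F : ∀ z i, eval₂ φ (g' z) (graph F Q i) = 0 := by
    intro z i
    rcases i with i | j
    · simp only [graph]
      rw [hren]
      exact hgF z i
    · simp only [graph]
      rw [eval₂_sub, eval₂_mul, eval₂_X, eval₂_one, hren]
      simp only [g', Fin.append_right, y]
      have h1 := hgQ z j
      have h2 : eval (g z) (map φ (Q j)) = eval (f z0) (map φ (Q j)) * Complex.exp z ^ k j := h1
      rw [h2]
      have h3 : eval (f z0) (map φ (Q j)) ≠ 0 := by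
        rw [← eval₂_eq_eval_map]
        exact hfQ z0 j
      have h4 : Complex.exp (-z) ^ k j * Complex.exp z ^ k j = 1 := by
        rw [← mul_pow, ← Complex.exp_add, neg_add_cancel, Complex.exp_zero, one_pow]
      have h5 : (eval (f z0) (map φ (Q j)))⁻¹ * Complex.exp (-z) ^ k j
          * (eval (f z0) (map φ (Q j)) * Complex.exp z ^ k j)
          = ((eval (f z0) (map φ (Q j)))⁻¹ * eval (f z0) (map φ (Q j)))
            * (Complex.exp (-z) ^ k j * Complex.exp z ^ k j) := by ring
      rw [h5, h4, inv_mul_cancel₀ h3]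
      ring
  have hexp : Exp.ExpType g' := by
    refine ⟨?_, fun z => z, differentiable_id, ⟨0, 1, zero_ne_one⟩, 2,
      fun i z => if i = 0 then z else -z, fun l => Fin.addCases
        (fun j => C (a j) + X 0 * C (b j) + X 1 * C (c j))
        (fun j => C (eval (f z0) (map φ (Q j)))⁻¹ * X 2 ^ k j) l, ?_, ?_⟩
    · rw [differentiable_pi]
      intro l
      refine Fin.addCases (fun j => ?_) (fun j => ?_) l
      · simp only [g', Fin.append_left, hg]
        fun_prop
      · simp only [g', Fin.append_right, y]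
        fun_prop
    · intro i
      by_cases hi : i = 0
      · simp only [hi, if_true]
        exact differentiable_id
      · simp only [hi, if_false]
        exact differentiable_id.neg
    · intro z l
      refine Fin.addCases (fun j => ?_) (fun j => ?_) l
      · simp only [g', Fin.append_left, hg, Fin.addCases_left]
        simp only [map_add, map_mul, eval_C, eval_X]
        have h1 : (Fin.cons z (fun i : Fin 2 => Complex.exp (if i = 0 then z else -z)) :
            Fin 3 → ℂ) 1 = Complex.exp z := rfl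
        rw [h1]
        have h2 : (Fin.cons z (fun i : Fin 2 => Complex.exp (if i = 0 then z else -z)) :
            Fin 3 → ℂ) 0 = z := rfl
        rw [h2]
      · simp only [g', Fin.append_right, y, Fin.addCases_right]
        simp only [map_mul, map_pow, eval_C, eval_X]
        rfl
  have hnc' : ∃ z w, g' z ≠ g' w := by
    refine ⟨z1, 0, fun h0 => hz1 ?_⟩
    rw [← hg0]
    funext j
    have h1 := congrFun h0 (Fin.castAdd m j)
    simpa only [g', Fin.append_left] using h1
  have h1 := Exp.main (graph F Q) (fun j => rename (Fin.castAdd m) (G j)) (graph_fin F Q G hfin) σ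
    g' hexp hg'F hnc' 0 i'
  apply hG
  rw [← hφ] at h1
  rw [hren, hg0] at h1
  rw [eval₂_eq_eval_map]
  exact h1

end Pool.Agent.H159R3.WarAff
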