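import Pool.Agent.H159R3.GGL.Main
import Pool.Agent.H159R3.Exp.Rational

/-!
The union of the lines in a projective variety is closed.
-/

set_option autoImplicit false

namespace Pool.Agent.H159R3.War

open MvPolynomial Pool.Agent.H159R3.GGL

variable {n : ℕ} {ι : Type}

/-- The line through the different points `p` and `q` of `P^n` lies in `X`. -/
def LineIn (F : ι → MvPolynomial (Fin (n + 1)) ℂ) (p q : Fin (n + 1) → ℂ) : Prop :=
  LinearIndependent ℂ ![p, q] ∧ ∀ i (s t : ℂ), eval (s • p + t • q) (F i) = 0

theorem eval_smul_hom {m e : ℕ} {P : MvPolynomial (Fin m) ℂ} (hP : P.IsHomogeneous e) (c : ℂ)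
    (y : Fin m → ℂ) : eval (c • y) P = c ^ e * eval y P := by
  rw [eval_eq', eval_eq', Finset.mul_sum]
  refine Finset.sum_congr rfl fun d hd => ?_
  have h1 : ∑ j, d j = e := by
    have := hP (mem_support_iff.mp hd)
    rw [← this, Finsupp.weight_apply, Finsupp.sum_fintype _ _ (by simp)]
    simp
  simp only [Pi.smul_apply, smul_eq_mul, mul_pow]
  rw [Finset.prod_mul_distrib, Finset.prod_pow_eq_pow_sum, h1]
  ring

theorem comp_eval_zero {m : ℕ} (P : MvPolynomial (Fin m) ℂ) (y : Fin m → ℂ)
    (h : ∀ c : ℂ, c ≠ 0 → eval (c • y) P = 0) (e : ℕ) :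
    eval y (homogeneousComponent e P) = 0 := by
  by_cases he : P.totalDegree < e
  · rw [homogeneousComponent_eq_zero _ _ he, map_zero]
  let p : Polynomial ℂ := ∑ e ∈ Finset.range (P.totalDegree + 1),
    Polynomial.C (eval y (homogeneousComponent e P)) * Polynomial.X ^ e
  have hp : ∀ c, Polynomial.eval c p = eval (c • y) P := by
    intro c
    conv_rhs => rw [← sum_homogeneousComponent P]
    simp only [p]
    rw [Polynomial.eval_finset_sum, map_sum]
    refine Finset.sum_congr rfl fun e _ => ?_
    rw [eval_smul_hom (homogeneousComponent_isHomogeneous e P)]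
    simp only [Polynomial.eval_mul, Polynomial.eval_C, Polynomial.eval_pow, Polynomial.eval_X]
    ring
  have hp0 : p = 0 := by
    apply Polynomial.eq_zero_of_infinite_isRoot
    refine Set.infinite_of_injective_forall_mem (f := fun k : ℕ => ((k + 1 : ℕ) : ℂ)) ?_ ?_
    · intro a b hab
      have hab' : ((a + 1 : ℕ) : ℂ) = ((b + 1 : ℕ) : ℂ) := hab
      have : a + 1 = b + 1 := by exact_mod_cast hab'
      omega
    · intro k
      change Polynomial.IsRoot p _
      rw [Polynomial.IsRoot.def, hp]
      exact h _ (by exact_mod_cast Nat.succ_ne_zero k)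
  have h1 : p.coeff e = 0 := by rw [hp0, Polynomial.coeff_zero]
  simp only [p] at h1
  rw [Polynomial.finset_sum_coeff] at h1
  simp only [Polynomial.coeff_C_mul, Polynomial.coeff_X_pow] at h1
  rw [Finset.sum_eq_single e] at h1
  · simpa using h1
  · intro b _ hb
    rw [if_neg (Ne.symm hb), mul_zero]
  · intro he'
    exact absurd (Finset.mem_range.mpr (by omega)) he'

theorem comp_sum_zero {m : ℕ} (P : MvPolynomial (Fin m) ℂ) (y : Fin m → ℂ)
    (h : ∀ c : ℂ, c ≠ 0 → eval (c • y) P = 0) (e : ℕ) :
    ∑ d ∈ Finset.finsuppAntidiag (Finset.univ : Finset (Fin m)) e,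
      P.coeff d * ∏ j, y j ^ d j = 0 := by
  classical
  have h1 := comp_eval_zero P y h e
  rw [homogeneousComponent_apply, map_sum] at h1
  rw [← h1]
  simp only [eval_monomial]
  have h2 : ∀ d : Fin m →₀ ℕ, (d.prod fun j k => y j ^ k) = ∏ j, y j ^ d j := fun d =>
    Finsupp.prod_fintype _ _ (fun j => pow_zero _)
  simp only [h2]
  symm
  apply Finset.sum_subset
  · intro d hd
    rw [Finset.mem_filter] at hd
    rw [Finset.mem_finsuppAntidiag]
    refine ⟨?_, Finset.subset_univ _⟩
    rw [← hd.2, Finsupp.degree_eq_sum]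
  · intro d hd hd2
    rw [Finset.mem_filter, not_and_or] at hd2
    rw [Finset.mem_finsuppAntidiag] at hd
    rcases hd2 with hd2 | hd2
    · rw [notMem_support_iff.mp hd2, zero_mul]
    · exfalso
      apply hd2
      rw [Finsupp.degree_eq_sum]
      exact hd.1

/-- Elimination theory. -/
theorem elim {m m' : ℕ} {κ : Type*} (Q : κ → MvPolynomial (Fin (m' + 1)) (MvPolynomial (Fin m) ℂ))
    (x0 : Fin m → ℂ) (hx0 : ∀ y, (∀ a, eval y (map (eval x0) (Q a)) = 0) → y = 0) :
    ∃ D : MvPolynomial (Fin m) ℂ, eval x0 D ≠ 0 ∧ ∀ x y, y ≠ 0 →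
      (∀ c : ℂ, c ≠ 0 → ∀ a, eval (c • y) (map (eval x) (Q a)) = 0) → eval x D = 0 := by
  classical
  let I : Ideal (MvPolynomial (Fin (m' + 1)) ℂ) :=
    Ideal.span (Set.range fun a => map (eval x0) (Q a))
  have hrad : ∀ k, ∃ N : ℕ, (X k : MvPolynomial (Fin (m' + 1)) ℂ) ^ N ∈ I := by
    intro k
    have h1 : (X k : MvPolynomial (Fin (m' + 1)) ℂ) ∈ I.radical := by
      rw [← vanishingIdeal_zeroLocus_eq_radical (K := ℂ), mem_vanishingIdeal_iff]
      intro y hy
      rw [mem_zeroLocus_iff] at hy
      have h2 : y = 0 := hx0 y fun a => by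
        have := hy _ (Ideal.subset_span ⟨a, rfl⟩)
        simpa [aeval_eq_eval] using this
      rw [h2]
      simp
    exact h1
  choose N hN using hrad
  set N' := ∑ k, N k with hN'
  have hN2 : ∀ k, (X k : MvPolynomial (Fin (m' + 1)) ℂ) ^ N' ∈ I := by
    intro k
    obtain ⟨e, he⟩ := Nat.exists_eq_add_of_le
      (Finset.single_le_sum (f := N) (fun _ _ => Nat.zero_le _) (Finset.mem_univ k))
    rw [hN', he, pow_add]
    exact Ideal.mul_mem_right _ _ (hN k)
  set M := (m' + 1) * N' with hM
  have hmon : ∀ d : Fin (m' + 1) →₀ ℕ, ∑ j, d j = M → (monomial d (1 : ℂ)) ∈ I := by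
    intro d hd
    have h1 : ∃ k, N' ≤ d k := by
      by_contra hcon
      push Not at hcon
      have h2 : ∑ j, d j < ∑ _j : Fin (m' + 1), N' :=
        Finset.sum_lt_sum_of_nonempty Finset.univ_nonempty fun j _ => hcon j
      rw [hd, Finset.sum_const, Finset.card_univ, Fintype.card_fin, smul_eq_mul] at h2
      omega
    obtain ⟨k, hk⟩ := h1
    have hdd : Finsupp.single k N' + (d - Finsupp.single k N') = d := by
      ext j
      by_cases hj : j = k
      · subst hj
        simp only [Finsupp.coe_add, Finsupp.coe_tsub, Pi.add_apply, Pi.sub_apply,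
          Finsupp.single_eq_same]
        omega
      · simp [Finsupp.single_eq_of_ne hj]
    have h3 : (monomial d (1 : ℂ)) = X k ^ N' * monomial (d - Finsupp.single k N') (1 : ℂ) := by
      rw [X_pow_eq_monomial, monomial_mul, one_mul, hdd]
    rw [h3]
    exact Ideal.mul_mem_right _ _ (hN2 k)
  let S := Finset.finsuppAntidiag (Finset.univ : Finset (Fin (m' + 1))) M
  have hS : ∀ d ∈ S, ∑ j, d j = M := fun d hd => (Finset.mem_finsuppAntidiag.mp hd).1
  have hc : ∀ d : S, ∃ c : κ →₀ MvPolynomial (Fin (m' + 1)) ℂ,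
      (c.sum fun a h => h • map (eval x0) (Q a)) = monomial d.1 (1 : ℂ) := by
    intro d
    have := hmon d.1 (hS d.1 d.2)
    exact Finsupp.mem_span_range_iff_exists_finsupp.mp this
  choose c hc using hc
  let R : S → MvPolynomial (Fin (m' + 1)) (MvPolynomial (Fin m) ℂ) := fun d =>
    (c d).sum fun a h => map C h * Q a
  have hR : ∀ x d, map (eval x) (R d) = (c d).sum fun a h => h * map (eval x) (Q a) := by
    intro x d
    simp only [R, Finsupp.sum]
    rw [map_sum]
    refine Finset.sum_congr rfl fun a _ => ?_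
    rw [map_mul, map_map]
    congr 1
    have : (eval x).comp (C : ℂ →+* MvPolynomial (Fin m) ℂ) = RingHom.id ℂ := by
      ext <;> simp
    rw [this, map_id]
  let A : Matrix S S (MvPolynomial (Fin m) ℂ) := fun d d' => coeff d'.1 (R d)
  refine ⟨A.det, ?_, ?_⟩
  · rw [RingHom.map_det]
    have : (eval x0).mapMatrix A = 1 := by
      ext d d'
      rw [RingHom.mapMatrix_apply, Matrix.map_apply]
      simp only [A]
      rw [← coeff_map, hR x0]
      have h1 := hc d
      simp only [smul_eq_mul] at h1
      rw [h1, coeff_monomial, Matrix.one_apply]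
      by_cases hdd : d = d'
      · rw [if_pos hdd, if_pos (congrArg Subtype.val hdd)]
      · rw [if_neg hdd, if_neg (fun h => hdd (Subtype.ext h))]
    rw [this, Matrix.det_one]
    exact one_ne_zero
  · intro x y hy hxy
    by_contra hdet
    rw [RingHom.map_det] at hdet
    set B := (eval x).mapMatrix A with hB
    let v : S → ℂ := fun d => ∏ j, y j ^ d.1 j
    have hBv : B.mulVec v = 0 := by
      funext d
      have h1 := comp_sum_zero (map (eval x) (R d)) y (fun c hc0 => by
        rw [hR x, Finsupp.sum, map_sum]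
        refine Finset.sum_eq_zero fun a _ => ?_
        rw [map_mul, hxy c hc0 a, mul_zero]) M
      rw [← Finset.sum_coe_sort] at h1
      rw [Pi.zero_apply, ← h1]
      simp only [Matrix.mulVec, dotProduct]
      refine Finset.sum_congr rfl fun d' _ => ?_
      rw [coeff_map]
      rfl
    have hv : v = 0 := by
      have h1 : (B.adjugate * B).mulVec v = 0 := by
        rw [← Matrix.mulVec_mulVec, hBv, Matrix.mulVec_zero]
      rw [Matrix.adjugate_mul, Matrix.smul_mulVec, Matrix.one_mulVec] at h1
      exact (smul_eq_zero.mp h1).resolve_left hdet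
    apply hy
    funext k
    have hk : Finsupp.single k M ∈ S := by
      simp only [S]
      rw [Finset.mem_finsuppAntidiag]
      refine ⟨?_, Finset.subset_univ _⟩
      rw [Finset.sum_eq_single k]
      · simp
      · intro j _ hj
        simp [Finsupp.single_eq_of_ne hj]
      · simp
    have h1 : ∏ j, y j ^ (Finsupp.single k M) j = 0 := congrFun hv ⟨_, hk⟩
    rw [Finset.prod_eq_single k] at h1
    · rw [Finsupp.single_eq_same] at h1
      by_contra hyk
      exact pow_ne_zero _ hyk h1
    · intro j _ hj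
      rw [Finsupp.single_eq_of_ne hj, pow_zero]
    · simp

/-- the equations for the directions of the lines through a point -/
noncomputable def dir (F : ι → MvPolynomial (Fin (n + 1)) ℂ) (j : Fin (n + 1)) :
    Option (ι × ℂ) → MvPolynomial (Fin (n + 1)) (MvPolynomial (Fin (n + 1)) ℂ)
  | none => X j
  | some (i, t) => (F i).eval₂ (C.comp C) (fun l => C (X l) + C (C t) * X l)

theorem eval_dir_none (F : ι → MvPolynomial (Fin (n + 1)) ℂ) (j : Fin (n + 1))
    (x y : Fin (n + 1) → ℂ) : eval y (map (eval x) (dir F j none)) = y j := by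
  simp [dir]

theorem eval_dir_some (F : ι → MvPolynomial (Fin (n + 1)) ℂ) (j : Fin (n + 1)) (i : ι) (t : ℂ)
    (x y : Fin (n + 1) → ℂ) :
    eval y (map (eval x) (dir F j (some (i, t)))) = eval (x + t • y) (F i) := by
  have h1 : eval y (map (eval x) (dir F j (some (i, t))))
      = ((eval y).comp (map (eval x))) ((F i).eval₂ (C.comp C)
        (fun l => C (X l) + C (C t) * X l)) := rfl
  rw [h1, eval₂_comp_left]
  have h2 : ((eval y).comp (map (eval x))).comp ((C : MvPolynomial (Fin (n + 1)) ℂ →+* _).comp
      (C : ℂ →+* MvPolynomial (Fin (n + 1)) ℂ)) = RingHom.id ℂ := by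
    ext <;> simp
  rw [h2]
  have h3 : (((eval y).comp (map (eval x)) : MvPolynomial (Fin (n + 1))
      (MvPolynomial (Fin (n + 1)) ℂ) →+* ℂ) ∘ fun l => C (X l) + C (C t) * X l) = x + t • y := by
    funext l
    simp
  rw [h3]
  rfl

theorem line_limit {d : ℕ} {G : MvPolynomial (Fin (n + 1)) ℂ} (hG : G.IsHomogeneous d)
    (x y : Fin (n + 1) → ℂ) (h : ∀ t : ℂ, eval (x + t • y) G = 0) (s t : ℂ) :
    eval (s • x + t • y) G = 0 := by
  have h1 : ∀ s t : ℂ, s ≠ 0 → eval (s • x + t • y) G = 0 := by
    intro s t hs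
    have : s • x + t • y = s • (x + (t / s) • y) := by
      rw [smul_add, smul_smul]
      congr 2
      field_simp
    rw [this, eval_smul_hom hG, h, mul_zero]
  by_cases hs : s = 0
  · have hcont : Continuous (fun s : ℂ => eval (s • x + t • y) G) := by
      have : (fun s : ℂ => eval (s • x + t • y) G)
          = fun s => ∑ α ∈ G.support, G.coeff α * ∏ j, (s • x + t • y) j ^ α j := by
        funext s
        rw [eval_eq']
      rw [this]
      refine continuous_finset_sum _ fun α _ => Continuous.mul continuous_const ?_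
      refine continuous_finset_prod _ fun j _ => Continuous.pow ?_ _
      simp only [Pi.add_apply, Pi.smul_apply, smul_eq_mul]
      fun_prop
    have h2 : (fun s : ℂ => eval (s • x + t • y) G) = fun _ => 0 := by
      apply Continuous.ext_on (dense_compl_singleton (0 : ℂ)) hcont continuous_const
      intro s hs
      exact h1 s t hs
    exact congrFun h2 s
  · exact h1 s t hs

theorem closed_at (F : ι → MvPolynomial (Fin (n + 1)) ℂ) (hF : ∀ i, ∃ d, (F i).IsHomogeneous d)
    (x0 : Fin (n + 1) → ℂ) (hx0 : x0 ≠ 0) (hno : ∀ q, ¬ LineIn F x0 q) :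
    ∃ G : MvPolynomial (Fin (n + 1)) ℂ, (∃ d, G.IsHomogeneous d) ∧ eval x0 G ≠ 0 ∧
      ∀ x q, LineIn F x q → eval x G = 0 := by
  obtain ⟨j, hj⟩ := Function.ne_iff.mp hx0
  have hj' : x0 j ≠ 0 := hj
  obtain ⟨D, hD0, hD⟩ := elim (dir F j) x0 (by
    intro y hy
    by_contra hy0
    have hyj : y j = 0 := by
      have := hy none
      rwa [eval_dir_none] at this
    apply hno y
    refine ⟨?_, ?_⟩
    · rw [LinearIndependent.pair_iff]
      intro s t hst
      have hs : s = 0 := by
        have h1 := congrFun hst j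
        simp only [Pi.add_apply, Pi.smul_apply, smul_eq_mul, hyj, mul_zero, add_zero,
          Pi.zero_apply] at h1
        exact (mul_eq_zero.mp h1).resolve_right hj'
      refine ⟨hs, ?_⟩
      rw [hs, zero_smul, zero_add] at hst
      exact (smul_eq_zero.mp hst).resolve_right hy0
    · intro i s t
      obtain ⟨d, hd⟩ := hF i
      apply line_limit hd
      intro t
      have := hy (some (i, t))
      rwa [eval_dir_some] at this)
  -- a hypersurface, perhaps not homogeneous
  have hG : ∀ x q, LineIn F x q → eval x (X j * D) = 0 := by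
    intro x q hxq
    rw [map_mul, eval_X]
    by_cases hxj : x j = 0
    · rw [hxj, zero_mul]
    · rw [hD x (q - (q j / x j) • x) ?_ ?_, mul_zero]
      · intro h0
        have h1 := LinearIndependent.pair_iff.mp hxq.1 (-(q j / x j)) 1 (by
          rw [one_smul, neg_smul, neg_add_eq_sub]
          exact h0)
        exact one_ne_zero h1.2
      · intro c hc a
        rcases a with _ | ⟨i, t⟩
        · rw [eval_dir_none]
          simp only [Pi.smul_apply, Pi.sub_apply, smul_eq_mul]
          field_simp
          ring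
        · rw [eval_dir_some]
          have h1 := hxq.2 i (1 - t * c * (q j / x j)) (t * c)
          rw [← h1]
          congr 2
          funext l
          simp only [Pi.add_apply, Pi.smul_apply, Pi.sub_apply, smul_eq_mul]
          ring
  have hscale : ∀ (c : ℂ) (_ : c ≠ 0) x q, LineIn F x q → LineIn F (c • x) (c • q) := by
    intro c hc x q hxq
    refine ⟨?_, ?_⟩
    · rw [LinearIndependent.pair_iff]
      intro s t hst
      rw [smul_smul, smul_smul] at hst
      obtain ⟨h1, h2⟩ := LinearIndependent.pair_iff.mp hxq.1 _ _ hst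
      exact ⟨(mul_eq_zero.mp h1).resolve_right hc, (mul_eq_zero.mp h2).resolve_right hc⟩
    · intro i s t
      rw [smul_smul, smul_smul]
      exact hxq.2 i _ _
  have hcomp : ∃ e, eval x0 (homogeneousComponent e (X j * D)) ≠ 0 := by
    by_contra hcon
    push Not at hcon
    have h1 : eval x0 (X j * D) = 0 := by
      rw [← sum_homogeneousComponent (X j * D), map_sum]
      exact Finset.sum_eq_zero fun e _ => hcon e
    rw [map_mul, eval_X] at h1
    exact mul_ne_zero hj' hD0 h1
  obtain ⟨e, he⟩ := hcomp
  refine ⟨_, ⟨e, homogeneousComponent_isHomogeneous e _⟩, he, ?_⟩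
  intro x q hxq
  exact comp_eval_zero _ x (fun c hc => hG _ _ (hscale c hc x q hxq)) e

end Pool.Agent.H159R3.War
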