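import Pool.Agent.H159R3.War.LogMain

/-!
Pseudo-Brody hyperbolicity of quasi-projective varieties given by forms of small Waring rank.
-/

set_option autoImplicit false

namespace Pool.Agent.H159R3.WarLog

open MvPolynomial Pool.Agent.H159R3.War

variable {n : ℕ} {ι κ : Type}

theorem SmallWaringLog.hom {Q : MvPolynomial (Fin (n + 1)) ℂ} {d : ℕ} (h : SmallWaringLog Q d) :
    Q.IsHomogeneous d := by
  obtain ⟨s, ℓ, _, _, rfl⟩ := h
  apply IsHomogeneous.sum
  intro k _
  have h1 : (∑ j, C (ℓ k j) * X j : MvPolynomial (Fin (n + 1)) ℂ).IsHomogeneous 1 := by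
    apply IsHomogeneous.sum
    intro j _
    have := (isHomogeneous_C (Fin (n + 1)) (ℓ k j)).mul (isHomogeneous_X ℂ j)
    simpa using this
  have := h1.pow d
  simpa using this

section

variable [DecidableEq κ] [Fintype κ] (F : ι → MvPolynomial (Fin (n + 1)) ℂ)
    (Q : κ → MvPolynomial (Fin (n + 1)) ℂ) (d : κ → ℕ)

theorem eqs_trivial (hF : ∀ i, ∃ d, (F i).IsHomogeneous d) (hQ : ∀ j, (Q j).IsHomogeneous (d j))
    (hd : ∀ j, 0 < d j) (x0 : Fin (n + 1) → ℂ) (hx0 : x0 ∈ Pts F Q)
    (hno : ∀ q, ¬ PuncturedLine F Q x0 q) (l : Fin (n + 1)) (hl : x0 l ≠ 0) (T : Finset κ)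
    (Y : Fin (n + 2 + 1) → ℂ) (hY : ∀ a, eval Y (map (eval x0) (eqs F Q d l T a)) = 0) : Y = 0 := by
  set y : Fin (n + 1) → ℂ := fun l => Y (emb l) with hy
  have hyl : y l = 0 := by
    have := hY (.inl 0)
    simpa [eqs] using this
  have hu : T = ∅ → Y (iu n) = 0 := by
    intro hT
    have := hY (.inl 1)
    simpa [eqs, hT] using this
  have hw : T = Finset.univ → Y (iw n) = 0 := by
    intro hT
    have := hY (.inl 2)
    simpa [eqs, hT] using this
  have hFe : ∀ i (t : ℂ), eval (x0 + t • y) (F i) = 0 := by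
    intro i t
    have := hY (.inr (.inl (i, t)))
    simp only [eqs] at this
    rwa [eval_lift] at this
  have hQe : ∀ j (t : ℂ), eval (x0 + t • y) (Q j)
      = eval x0 (Q j) * (1 + t * Y (if j ∈ T then iu n else iw n)) ^ d j := by
    intro j t
    have := hY (.inr (.inr (j, t)))
    simp only [eqs] at this
    rw [map_sub, map_sub, eval_lift] at this
    simp only [map_mul, map_C, map_pow, map_add, map_one, map_X, eval_C, eval_X] at this
    exact sub_eq_zero.mp this
  have hy0 : y = 0 := by
    by_contra hy0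
    apply hno y
    refine ⟨⟨?_, ?_⟩, -Y (iu n), -Y (iw n), ?_⟩
    · rw [LinearIndependent.pair_iff]
      intro s t hst
      have hs : s = 0 := by
        have h1 := congrFun hst l
        simp only [Pi.add_apply, Pi.smul_apply, smul_eq_mul, hyl, mul_zero, add_zero,
          Pi.zero_apply] at h1
        exact (mul_eq_zero.mp h1).resolve_right hl
      refine ⟨hs, ?_⟩
      rw [hs, zero_smul, zero_add] at hst
      exact (smul_eq_zero.mp hst).resolve_right hy0
    · intro i s t
      obtain ⟨e, he⟩ := hF i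
      exact line_limit he _ _ (hFe i) s t
    · intro j s t hst
      rw [limit_pow (hQ j) _ _ _ (hQe j)] at hst
      have h1 : s + t * Y (if j ∈ T then iu n else iw n) = 0 := by
        by_contra hne
        exact mul_ne_zero (hx0.2.2 j) (pow_ne_zero _ hne) hst
      by_cases hj : j ∈ T
      · rw [if_pos hj] at h1
        left
        linear_combination h1
      · rw [if_neg hj] at h1
        right
        linear_combination h1
  have hQ0 : ∀ j (t : ℂ), eval x0 (Q j)
      = eval x0 (Q j) * (1 + t * Y (if j ∈ T then iu n else iw n)) ^ d j := by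
    intro j t
    have := hQe j t
    rwa [hy0, smul_zero, add_zero] at this
  have hu0 : Y (iu n) = 0 := by
    by_cases hT : T = ∅
    · exact hu hT
    · obtain ⟨j, hj⟩ := Finset.nonempty_iff_ne_empty.mpr hT
      apply puncture_zero (hd j) (hx0.2.2 j)
      intro t
      have := hQ0 j t
      rwa [if_pos hj] at this
  have hw0 : Y (iw n) = 0 := by
    by_cases hT : T = Finset.univ
    · exact hw hT
    · have : ∃ j, j ∉ T := by
        by_contra hcon
        push Not at hcon
        exact hT (Finset.eq_univ_of_forall hcon)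
      obtain ⟨j, hj⟩ := this
      apply puncture_zero (hd j) (hx0.2.2 j)
      intro t
      have := hQ0 j t
      rwa [if_neg hj] at this
  funext k
  refine Fin.lastCases hw0 (fun k => ?_) k
  refine Fin.lastCases hu0 (fun k => ?_) k
  exact congrFun hy0 k

theorem eqs_solution (x v : Fin (n + 1) → ℂ) (hli : LinearIndependent ℂ ![x, v])
    (hF : ∀ i (s t : ℂ), eval (s • x + t • v) (F i) = 0) (u : ℂ) (T : Finset κ)
    (hQ1 : ∀ j ∈ T, ∀ s t : ℂ, eval (s • x + t • v) (Q j) = eval x (Q j) * (s + u * t) ^ d j)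
    (hQ2 : ∀ j, j ∉ T → ∀ s t : ℂ, eval (s • x + t • v) (Q j) = eval x (Q j) * s ^ d j)
    (l : Fin (n + 1)) (hl : x l ≠ 0) :
    ∃ Y : Fin (n + 2 + 1) → ℂ, Y ≠ 0 ∧
      ∀ c : ℂ, c ≠ 0 → ∀ a, eval (c • Y) (map (eval x) (eqs F Q d l T a)) = 0 := by
  set k0 : ℂ := v l / x l with hk0
  let y : Fin (n + 1) → ℂ := v - k0 • x
  let u' : ℂ := if T = ∅ then 0 else u - k0
  let w' : ℂ := if T = Finset.univ then 0 else -k0
  let Y : Fin (n + 2 + 1) → ℂ := Fin.snoc (α := fun _ => ℂ) (Fin.snoc (α := fun _ => ℂ) y u') w'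
  have hYe : ∀ k, Y (emb k) = y k := by
    intro k
    simp only [Y, emb]
    rw [Fin.snoc_castSucc, Fin.snoc_castSucc]
  have hYu : Y (iu n) = u' := by
    simp only [Y, iu]
    rw [Fin.snoc_castSucc, Fin.snoc_last]
  have hYw : Y (iw n) = w' := by
    simp only [Y, iw]
    rw [Fin.snoc_last]
  have hcomb : ∀ c t : ℂ, (x + t • fun l => (c • Y) (emb l))
      = (1 - t * c * k0) • x + (t * c) • v := by
    intro c t
    funext k
    simp only [Pi.add_apply, Pi.smul_apply, smul_eq_mul, hYe, y, Pi.sub_apply]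
    ring
  refine ⟨Y, ?_, ?_⟩
  · intro h0
    have hy : y = 0 := by
      funext k
      rw [← hYe, h0]
      rfl
    have h1 := LinearIndependent.pair_iff.mp hli (-k0) 1 (by
      rw [one_smul, neg_smul, neg_add_eq_sub]
      exact hy)
    exact one_ne_zero h1.2
  · intro c hc a
    rcases a with a | ⟨i, t⟩ | ⟨j, t⟩
    · fin_cases a
      · simp only [eqs, Fin.zero_eta, map_X, eval_X, Pi.smul_apply, smul_eq_mul, hYe, y,
          Pi.sub_apply, hk0]
        field_simp
        ring
      · by_cases hT : T = ∅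
        · simp [eqs, hT, hYu, u']
        · simp [eqs, hT]
      · by_cases hT : T = Finset.univ
        · simp [eqs, hT, hYw, w']
        · simp [eqs, hT]
    · simp only [eqs]
      rw [eval_lift, hcomb]
      exact hF i _ _
    · simp only [eqs]
      rw [map_sub, map_sub, eval_lift, hcomb]
      simp only [map_mul, map_C, map_pow, map_add, map_one, map_X, eval_C, eval_X]
      by_cases hj : j ∈ T
      · have hT : T ≠ ∅ := fun h => by rw [h] at hj; exact absurd hj (Finset.notMem_empty j)
        rw [hQ1 j hj, if_pos hj, Pi.smul_apply, smul_eq_mul, hYu]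
        simp only [u', if_neg hT]
        ring
      · have hT : T ≠ Finset.univ := fun h => hj (h ▸ Finset.mem_univ j)
        rw [hQ2 j hj, if_neg hj, Pi.smul_apply, smul_eq_mul, hYw]
        simp only [w', if_neg hT]
        ring

end

end Pool.Agent.H159R3.WarLog
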