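import Pool.Agent.H159R3.War.Main

/-!
Entire curves in complements of hypersurfaces of small Waring rank: they lie on lines with at most
two punctures.
-/

set_option autoImplicit false

namespace Pool.Agent.H159R3.War

open MvPolynomial Pool.Agent.H159R3.GGL

variable {n : ℕ} {ι κ : Type}

/-- Borel's theorem: specialisation of zero-free functions to one class of proportional ones -/
theorem class_span [Fintype κ] (r : κ → ℂ → ℂ) (hr : ∀ j, Differentiable ℂ (r j))
    (hr0 : ∀ j z, r j z ≠ 0) (j0 : κ) :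
    ∃ s : ℂ →₀ ℂ, ∀ j, ((∃ a : ℂ, ∀ z, r j z = a * r j0 z) →
        (s.sum fun z c => c * r j z) = r j 0) ∧
      ((¬ ∃ a : ℂ, ∀ z, r j z = a * r j0 z) → (s.sum fun z c => c * r j z) = 0) := by
  classical
  let T : κ → Prop := fun j => ∃ a : ℂ, ∀ z, r j z = a * r j0 z
  let e : κ → ℂ := fun j => if T j then r j 0 else 0
  let v : ℂ → κ → ℂ := fun z j => r j z
  have hmem : e ∈ Submodule.span ℂ (Set.range v) := by
    by_contra hcon
    obtain ⟨φ, hφ, hφ2⟩ := Submodule.exists_le_ker_of_notMem hcon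
    -- coefficients of the functional
    have hφsum : ∀ w : κ → ℂ, φ w = ∑ j, φ (Pi.single j 1) * w j := by
      intro w
      have h1 : w = ∑ j, w j • (Pi.single j (1 : ℂ) : κ → ℂ) := by
        funext k
        rw [Finset.sum_apply, Finset.sum_eq_single k]
        · simp
        · intro j _ hj
          simp [hj.symm]
        · simp
      conv_lhs => rw [h1]
      rw [map_sum]
      refine Finset.sum_congr rfl fun j _ => ?_
      rw [map_smul, smul_eq_mul, mul_comm]
    set N := (Fintype.card κ - 1) ^ 2 + 1 with hN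
    have hroot : ∀ j, ∃ ρ : ℂ → ℂ, Differentiable ℂ ρ ∧ ∀ z, ρ z ^ N = r j z := fun j =>
      Toric.root (r j) (hr j) (hr0 j) (by omega)
    choose ρ hρ hρr using hroot
    have hρ0 : ∀ j z, ρ j z ≠ 0 := by
      intro j z h0
      apply hr0 j z
      rw [← hρr, h0, zero_pow (by omega)]
    have hT : ∀ i j (a : ℂ), (∀ z, ρ i z = a * ρ j z) → (T i ↔ T j) := by
      intro i j a ha
      have ha0 : a ≠ 0 := by
        intro h0
        apply hρ0 i 0
        rw [ha, h0, zero_mul]
      have h1 : ∀ z, r i z = a ^ N * r j z := by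
        intro z
        rw [← hρr, ← hρr, ha, mul_pow]
      constructor
      · rintro ⟨b, hb⟩
        refine ⟨b / a ^ N, fun z => ?_⟩
        have h2 := h1 z
        rw [hb z] at h2
        field_simp
        linear_combination -h2
      · rintro ⟨b, hb⟩
        refine ⟨a ^ N * b, fun z => ?_⟩
        rw [h1, hb]
        ring
    have h3 := Toric.spec_sum (N := N) (by omega) ρ hρ (fun j => if T j then ρ j 0 else 0)
      (by intro i hi; exact absurd (hi 0) (hρ0 i 0))
      (by
        intro i j a ha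
        have := hT i j a ha
        by_cases hi : T i
        · rw [if_pos hi, if_pos (this.mp hi), ha]
        · rw [if_neg hi, if_neg (fun h => hi (this.mpr h)), mul_zero])
      Finset.univ (by rw [Finset.card_univ]; omega) (fun j => φ (Pi.single j 1)) (by
        intro z
        have h4 : φ (v z) = 0 := hφ2 (Submodule.subset_span ⟨z, rfl⟩)
        rw [hφsum] at h4
        rw [← h4]
        refine Finset.sum_congr rfl fun j _ => ?_
        rw [hρr])
    apply hφ
    rw [hφsum, ← h3]
    refine Finset.sum_congr rfl fun j _ => ?_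
    by_cases hj : T j
    · simp only [e, if_pos hj, hρr]
    · simp only [e, if_neg hj]
      rw [zero_pow (by omega)]
  obtain ⟨s, hs⟩ := Finsupp.mem_span_range_iff_exists_finsupp.mp hmem
  refine ⟨s, fun j => ?_⟩
  have h1 : (s.sum fun z c => c * r j z) = e j := by
    rw [← hs]
    simp only [Finsupp.sum, Finset.sum_apply, Pi.smul_apply, smul_eq_mul]
    rfl
  rw [h1]
  constructor
  · intro hj
    simp only [e]
    rw [if_pos hj]
  · intro hj
    simp only [e]
    rw [if_neg hj]

/-- `Q` is a sum of `s` powers `ℓ ^ d` of linear forms with `s ^ 2 ≤ d`. -/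
def SmallWaringLog (Q : MvPolynomial (Fin (n + 1)) ℂ) (d : ℕ) : Prop :=
  ∃ (s : ℕ) (ℓ : Fin s → Fin (n + 1) → ℂ), 0 < d ∧ s ^ 2 ≤ d ∧
    Q = ∑ k, (∑ j, C (ℓ k j) * X j) ^ d

theorem eval_waring {s d : ℕ} (ℓ : Fin s → Fin (n + 1) → ℂ) (x : Fin (n + 1) → ℂ) :
    eval x (∑ k, (∑ j, C (ℓ k j) * X j) ^ d) = ∑ k, (∑ j, ℓ k j * x j) ^ d := by
  rw [map_sum]
  refine Finset.sum_congr rfl fun k _ => ?_
  rw [map_pow, map_sum]
  congr 1
  refine Finset.sum_congr rfl fun j _ => ?_
  rw [map_mul, eval_C, eval_X]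

theorem functional {F : MvPolynomial (Fin (n + 1)) ℂ} (h : SmallWaring F)
    (f : ℂ → Fin (n + 1) → ℂ) (hf : Differentiable ℂ f) (hfF : ∀ z, eval (f z) F = 0)
    (Φ : (ℂ → ℂ) →ₗ[ℂ] ℂ) : eval (fun j => Φ (fun z => f z j)) F = 0 := by
  classical
  obtain ⟨d, s, ℓ, hd, hs, rfl⟩ := h
  have hfj : ∀ j, Differentiable ℂ (fun z => f z j) := fun j => by
    rw [differentiable_pi] at hf
    exact hf j
  rw [eval_waring]
  have hlin : ∀ k, ∑ j, ℓ k j * Φ (fun z => f z j) = Φ (fun z => ∑ j, ℓ k j * f z j) := by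
    intro k
    have h1 : (fun z => ∑ j, ℓ k j * f z j) = ∑ j, ℓ k j • (fun z => f z j) := by
      funext z
      simp [Finset.sum_apply]
    rw [h1, map_sum]
    refine Finset.sum_congr rfl fun j _ => ?_
    rw [map_smul, smul_eq_mul]
  simp only [hlin]
  have h1 := Toric.spec_sum hd (fun k z => ∑ j, ℓ k j * f z j)
    (fun k => Differentiable.fun_sum fun j _ => (hfj j).const_mul _)
    (fun k => Φ (fun z => ∑ j, ℓ k j * f z j))
    (by
      intro k hk
      have : (fun z => ∑ j, ℓ k j * f z j) = 0 := funext hk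
      change Φ (fun z => ∑ j, ℓ k j * f z j) = 0
      rw [this, map_zero])
    (by
      intro k l a ha
      have : (fun z => ∑ j, ℓ k j * f z j) = a • (fun z => ∑ j, ℓ l j * f z j) := funext ha
      change Φ (fun z => ∑ j, ℓ k j * f z j) = a * Φ (fun z => ∑ j, ℓ l j * f z j)
      rw [this, map_smul, smul_eq_mul])
    Finset.univ (by rw [Finset.card_univ, Fintype.card_fin]; exact hs) (fun _ => 1) (by
      intro z
      have := hfF z
      rw [eval_waring] at this
      simpa using this)
  simpa using h1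

theorem functional_log {Q : MvPolynomial (Fin (n + 1)) ℂ} {d : ℕ} (h : SmallWaringLog Q d)
    (f : ℂ → Fin (n + 1) → ℂ) (hf : Differentiable ℂ f) (r : ℂ → ℂ) (hr : Differentiable ℂ r)
    (hfQ : ∀ z, r z ^ d = eval (f z) Q)
    (Φ : (ℂ → ℂ) →ₗ[ℂ] ℂ) : eval (fun j => Φ (fun z => f z j)) Q = Φ r ^ d := by
  classical
  obtain ⟨s, ℓ, hd, hs, rfl⟩ := h
  have hfj : ∀ j, Differentiable ℂ (fun z => f z j) := fun j => by
    rw [differentiable_pi] at hf
    exact hf j
  rw [eval_waring]
  have hlin : ∀ k, ∑ j, ℓ k j * Φ (fun z => f z j) = Φ (fun z => ∑ j, ℓ k j * f z j) := by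
    intro k
    have h1 : (fun z => ∑ j, ℓ k j * f z j) = ∑ j, ℓ k j • (fun z => f z j) := by
      funext z
      simp [Finset.sum_apply]
    rw [h1, map_sum]
    refine Finset.sum_congr rfl fun j _ => ?_
    rw [map_smul, smul_eq_mul]
  simp only [hlin]
  let H : Option (Fin s) → ℂ → ℂ := fun k => match k with
    | none => r
    | some k => fun z => ∑ j, ℓ k j * f z j
  have h1 := Toric.spec_sum hd H
    (by
      intro k
      rcases k with _ | k
      · exact hr
      · exact Differentiable.fun_sum fun j _ => (hfj j).const_mul _)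
    (fun k => Φ (H k))
    (by
      intro k hk
      have : H k = 0 := funext hk
      change Φ (H k) = 0
      rw [this, map_zero])
    (by
      intro k l a ha
      have : H k = a • H l := funext ha
      change Φ (H k) = a * Φ (H l)
      rw [this, map_smul, smul_eq_mul])
    Finset.univ (by
      rw [Finset.card_univ, Fintype.card_option, Fintype.card_fin, Nat.add_sub_cancel]; exact hs)
    (fun k => if k = none then -1 else 1) (by
      intro z
      rw [Fintype.sum_option]
      have := hfQ z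
      rw [eval_waring] at this
      simp only [H, if_true, reduceCtorEq, if_false, one_mul]
      rw [← this]
      ring)
  rw [Fintype.sum_option] at h1
  simp only [H, if_true, reduceCtorEq, if_false, one_mul] at h1
  linear_combination h1

/-- A punctured line through each point of an entire curve -/
theorem log_line [Finite κ] (F : ι → MvPolynomial (Fin (n + 1)) ℂ) (hF : ∀ i, SmallWaring (F i))
    (Q : κ → MvPolynomial (Fin (n + 1)) ℂ) (d : κ → ℕ) (hQ : ∀ j, SmallWaringLog (Q j) (d j))
    (f : ℂ → Fin (n + 1) → ℂ) (hf : Differentiable ℂ f) (hfF : ∀ z i, eval (f z) (F i) = 0)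
    (hfQ : ∀ z j, eval (f z) (Q j) ≠ 0) (z0 w : ℂ) (hw : LinearIndependent ℂ ![f z0, f w]) :
    ∃ (v : Fin (n + 1) → ℂ) (u : ℂ) (T : Set κ), LineIn F (f z0) v ∧
      ∀ j (s t : ℂ), (j ∈ T → eval (s • f z0 + t • v) (Q j) = eval (f z0) (Q j) * (s + u * t) ^ d j) ∧
        (j ∉ T → eval (s • f z0 + t • v) (Q j) = eval (f z0) (Q j) * s ^ d j) := by
  classical
  have := Fintype.ofFinite κ
  have hd : ∀ j, 0 < d j := fun j => by
    obtain ⟨_, _, h, _⟩ := hQ j
    exact h
  have hfj : ∀ j, Differentiable ℂ (fun z => f z j) := fun j => by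
    rw [differentiable_pi] at hf
    exact hf j
  have hev : ∀ P : MvPolynomial (Fin (n + 1)) ℂ, Differentiable ℂ (fun z => eval (f z) P) := by
    intro P
    have : (fun z => eval (f z) P) = fun z => ∑ α ∈ P.support, P.coeff α * ∏ j, f z j ^ α j := by
      funext z
      rw [eval_eq']
    rw [this]
    apply Differentiable.fun_sum
    intro α _
    apply Differentiable.const_mul
    apply Differentiable.fun_finset_prod
    intro j _
    exact (hfj j).pow _
  have hroot : ∀ j, ∃ r : ℂ → ℂ, Differentiable ℂ r ∧ ∀ z, r z ^ d j = eval (f z) (Q j) :=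
    fun j => Toric.root _ (hev (Q j)) (fun z => hfQ z j) (hd j)
  choose r hr hrQ using hroot
  have hr0 : ∀ j z, r j z ≠ 0 := by
    intro j z h0
    apply hfQ z j
    rw [← hrQ, h0, zero_pow (hd j).ne']
  by_cases hall : ∃ j0 j1, ¬ ∃ a : ℂ, ∀ z, r j1 z = a * r j0 z
  · obtain ⟨j0, j1, hj⟩ := hall
    obtain ⟨σ, hσ⟩ := class_span r hr hr0 j0
    let Ψ : (ℂ → ℂ) →ₗ[ℂ] ℂ := σ.sum fun z c => c • LinearMap.proj z
    have hΨ : ∀ h : ℂ → ℂ, Ψ h = σ.sum fun z c => c * h z := by
      intro h
      simp only [Ψ, Finsupp.sum, LinearMap.sum_apply, LinearMap.smul_apply, LinearMap.proj_apply,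
        smul_eq_mul]
    let v : Fin (n + 1) → ℂ := fun j => Ψ (fun z => f z j)
    let Φ : ℂ → ℂ → (ℂ → ℂ) →ₗ[ℂ] ℂ := fun s t => s • LinearMap.proj z0 + t • Ψ
    have hΦ : ∀ s t (h : ℂ → ℂ), Φ s t h = s * h z0 + t * Ψ h := fun s t h => rfl
    have hP : ∀ s t : ℂ, (fun j => Φ s t (fun z => f z j)) = s • f z0 + t • v := fun s t => rfl
    have hQe : ∀ j (s t : ℂ), eval (s • f z0 + t • v) (Q j) = (s * r j z0 + t * Ψ (r j)) ^ d j := by
      intro j s t
      rw [← hP, functional_log (hQ j) f hf (r j) (hr j) (hrQ j), hΦ]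
    have hj0 : Ψ (r j0) = r j0 0 := by
      rw [hΨ]
      exact (hσ j0).1 ⟨1, fun z => by rw [one_mul]⟩
    have hj1 : Ψ (r j1) = 0 := by
      rw [hΨ]
      exact (hσ j1).2 hj
    refine ⟨v, r j0 0 / r j0 z0, {j | ∃ a : ℂ, ∀ z, r j z = a * r j0 z}, ⟨?_, ?_⟩, ?_⟩
    · rw [LinearIndependent.pair_iff]
      intro s t hst
      have h0 : ∀ j, s * r j z0 + t * Ψ (r j) = 0 := by
        intro j
        have h1 := hQe j s t
        have h2 := hQe j 0 0
        rw [hst] at h1
        rw [zero_smul, zero_smul, add_zero] at h2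
        rw [h2, zero_mul, zero_mul, add_zero, zero_pow (hd j).ne'] at h1
        by_contra hne
        exact pow_ne_zero _ hne h1.symm
      have hs : s = 0 := by
        have h1 := h0 j1
        rw [hj1, mul_zero, add_zero] at h1
        exact (mul_eq_zero.mp h1).resolve_right (hr0 j1 z0)
      refine ⟨hs, ?_⟩
      have h1 := h0 j0
      rw [hj0, hs, zero_mul, zero_add] at h1
      exact (mul_eq_zero.mp h1).resolve_right (hr0 j0 0)
    · intro i s t
      rw [← hP]
      exact functional (hF i) f hf (fun z => hfF z i) _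
    · intro j s t
      constructor
      · rintro ⟨a, ha⟩
        rw [hQe, hΨ, (hσ j).1 ⟨a, ha⟩, ← hrQ, ← mul_pow]
        congr 1
        rw [ha z0, ha 0]
        have := hr0 j0 z0
        field_simp
      · intro hjT
        rw [hQe, hΨ, (hσ j).2 hjT, ← hrQ, ← mul_pow]
        congr 1
        ring
  · push Not at hall
    let Φ : ℂ → ℂ → (ℂ → ℂ) →ₗ[ℂ] ℂ := fun s t => s • LinearMap.proj z0 + t • LinearMap.proj w
    have hΦ : ∀ s t (h : ℂ → ℂ), Φ s t h = s * h z0 + t * h w := by
      intro s t h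
      simp only [Φ, LinearMap.add_apply, LinearMap.smul_apply, LinearMap.proj_apply, smul_eq_mul]
    have hP : ∀ s t : ℂ, (fun j => Φ s t (fun z => f z j)) = s • f z0 + t • f w := by
      intro s t
      funext j
      rw [hΦ]
      simp only [Pi.add_apply, Pi.smul_apply, smul_eq_mul]
    have hQe : ∀ j (s t : ℂ), eval (s • f z0 + t • f w) (Q j)
        = (s * r j z0 + t * r j w) ^ d j := by
      intro j s t
      rw [← hP, functional_log (hQ j) f hf (r j) (hr j) (hrQ j), hΦ]
    have hFe : ∀ i (s t : ℂ), eval (s • f z0 + t • f w) (F i) = 0 := by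
      intro i s t
      rw [← hP]
      exact functional (hF i) f hf (fun z => hfF z i) _
    by_cases hne : Nonempty κ
    · obtain ⟨j0⟩ := hne
      refine ⟨f w, r j0 w / r j0 z0, Set.univ, ⟨hw, hFe⟩, ?_⟩
      intro j s t
      refine ⟨fun _ => ?_, fun h => absurd (Set.mem_univ j) h⟩
      obtain ⟨a, ha⟩ := hall j0 j
      rw [hQe, ← hrQ, ← mul_pow]
      congr 1
      rw [ha z0, ha w]
      have := hr0 j0 z0
      field_simp
    · exact ⟨f w, 0, Set.univ, ⟨hw, hFe⟩, fun j => absurd ⟨j⟩ hne⟩

end Pool.Agent.H159R3.War
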