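import Pool.Agent.H159R3.War.LogCurve

/-!
Pseudo-Brody hyperbolicity of quasi-projective varieties given by forms of small Waring rank.
-/

set_option autoImplicit false

namespace Pool.Agent.H159R3.WarLog

open MvPolynomial Pool.Agent.H159R3.War

variable {n : ℕ} {ι κ : Type}

/-- Homogeneous coordinates of the points of the quasi-projective variety `X` in `P^n` over the
complex numbers given by `F i = 0` for all `i` and `Q j ≠ 0` for all `j`. -/
def Pts (F : ι → MvPolynomial (Fin (n + 1)) ℂ) (Q : κ → MvPolynomial (Fin (n + 1)) ℂ) :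
    Set (Fin (n + 1) → ℂ) :=
  {x | x ≠ 0 ∧ (∀ i, eval x (F i) = 0) ∧ ∀ j, eval x (Q j) ≠ 0}

/-- `f` is the vector of homogeneous coordinates of an entire curve in `X`, that is, of a
nonconstant holomorphic map from the complex plane to `X`. -/
def EntireCurve (F : ι → MvPolynomial (Fin (n + 1)) ℂ) (Q : κ → MvPolynomial (Fin (n + 1)) ℂ)
    (f : ℂ → Fin (n + 1) → ℂ) : Prop :=
  Differentiable ℂ f ∧ (∀ z, f z ∈ Pts F Q) ∧ ∃ z w, ∀ c : ℂ, f z ≠ c • f w

/-- `X` is pseudo-Brody hyperbolic: some hypersurface that does not contain `X` contains all entire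
curves in `X`. -/
def PseudoBrody (F : ι → MvPolynomial (Fin (n + 1)) ℂ) (Q : κ → MvPolynomial (Fin (n + 1)) ℂ) :
    Prop :=
  ∃ G : MvPolynomial (Fin (n + 1)) ℂ, (∃ d, G.IsHomogeneous d) ∧ (∃ x ∈ Pts F Q, eval x G ≠ 0) ∧
    ∀ f, EntireCurve F Q f → ∀ z, eval (f z) G = 0

/-- The line through `p` and `q` lies in the closed variety `F = 0`, and at most two of its points,
among `u • p + q` and `w • p + q`, are not in `X` (where `p` is a point of `X`). -/
def PuncturedLine (F : ι → MvPolynomial (Fin (n + 1)) ℂ) (Q : κ → MvPolynomial (Fin (n + 1)) ℂ)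
    (p q : Fin (n + 1) → ℂ) : Prop :=
  LineIn F p q ∧ ∃ u w : ℂ, ∀ j (s t : ℂ), eval (s • p + t • q) (Q j) = 0 → s = u * t ∨ s = w * t

theorem curve_of_line (F : ι → MvPolynomial (Fin (n + 1)) ℂ)
    (Q : κ → MvPolynomial (Fin (n + 1)) ℂ) {p q : Fin (n + 1) → ℂ} (h : PuncturedLine F Q p q) :
    ∃ f, EntireCurve F Q f ∧ f 0 = p := by
  obtain ⟨⟨hli, hF⟩, u, w, hQ⟩ := h
  have key : ∀ s t : ℂ → ℂ, Differentiable ℂ s → Differentiable ℂ t → (∀ z, s z ≠ u * t z) →
      (∀ z, s z ≠ w * t z) → s 0 = 1 → t 0 = 0 → t 1 ≠ 0 →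
      ∃ f, EntireCurve F Q f ∧ f 0 = p := by
    intro s t hs ht hu hw hs0 ht0 ht1
    have hst : ∀ z, s z • p + t z • q ≠ 0 := by
      intro z h0
      obtain ⟨h1, h2⟩ := LinearIndependent.pair_iff.mp hli _ _ h0
      apply hu z
      rw [h1, h2, mul_zero]
    refine ⟨fun z => s z • p + t z • q, ⟨?_, ?_, 0, 1, ?_⟩, ?_⟩
    · rw [differentiable_pi]
      intro j
      exact (hs.mul_const _).add (ht.mul_const _)
    · intro z
      refine ⟨hst z, fun i => hF i _ _, fun j h0 => ?_⟩
      rcases hQ j _ _ h0 with h1 | h1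
      · exact hu z h1
      · exact hw z h1
    · intro c hc
      simp only [hs0, ht0, one_smul, zero_smul, add_zero] at hc
      have h1 := LinearIndependent.pair_iff.mp hli (1 - c * s 1) (-(c * t 1)) (by
        rw [sub_smul, neg_smul, one_smul, mul_smul, mul_smul]
        nth_rewrite 1 [hc]
        rw [smul_add]
        abel)
      have h2 : c = 0 := (mul_eq_zero.mp (neg_eq_zero.mp h1.2)).resolve_right ht1
      rw [h2, zero_mul, sub_zero] at h1
      exact one_ne_zero h1.1
    · simp only [hs0, ht0, one_smul, zero_smul, add_zero]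
  by_cases huw : u = w
  · subst huw
    refine key (fun z => 1 + u * z) (fun z => z) (by fun_prop) (by fun_prop) ?_ ?_ (by simp)
      (by simp) (by simp)
    · intro z h0
      have : (1 : ℂ) = 0 := by linear_combination h0
      exact one_ne_zero this
    · intro z h0
      have : (1 : ℂ) = 0 := by linear_combination h0
      exact one_ne_zero this
  · have huw' : u - w ≠ 0 := sub_ne_zero.mpr huw
    refine key (fun z => 1 + u * ((Complex.exp z - 1) / (u - w)))
      (fun z => (Complex.exp z - 1) / (u - w)) (by fun_prop) (by fun_prop) ?_ ?_ (by simp)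
      (by simp) ?_
    · intro z h0
      have : (1 : ℂ) = 0 := by linear_combination h0
      exact one_ne_zero this
    · intro z h0
      have h1 : 1 + (u - w) * ((Complex.exp z - 1) / (u - w)) = 0 := by linear_combination h0
      rw [mul_div_cancel₀ _ huw'] at h1
      exact Complex.exp_ne_zero z (by linear_combination h1)
    · rw [div_ne_zero_iff]
      refine ⟨?_, huw'⟩
      intro h0
      have h1 : Complex.exp ((1 : ℝ) : ℂ) = ((1 : ℝ) : ℂ) := by
        push_cast
        linear_combination h0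
      rw [← Complex.ofReal_exp] at h1
      have h2 : Real.exp 1 = 1 := Complex.ofReal_injective h1
      have := Real.exp_eq_one_iff 1 |>.mp h2
      norm_num at this

/-- the variables for the direction -/
def emb (l : Fin (n + 1)) : Fin (n + 2 + 1) := l.castSucc.castSucc

/-- the variable for the first puncture -/
def iu (n : ℕ) : Fin (n + 2 + 1) := (Fin.last (n + 1)).castSucc

/-- the variable for the second puncture -/
def iw (n : ℕ) : Fin (n + 2 + 1) := Fin.last (n + 2)

/-- the form `G (x + t y)` -/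
noncomputable def lift (t : ℂ) (G : MvPolynomial (Fin (n + 1)) ℂ) :
    MvPolynomial (Fin (n + 2 + 1)) (MvPolynomial (Fin (n + 1)) ℂ) :=
  G.eval₂ (C.comp C) (fun l => C (X l) + C (C t) * X (emb l))

theorem eval_lift (t : ℂ) (G : MvPolynomial (Fin (n + 1)) ℂ) (x : Fin (n + 1) → ℂ)
    (Y : Fin (n + 2 + 1) → ℂ) :
    eval Y (map (eval x) (lift t G)) = eval (x + t • fun l => Y (emb l)) G := by
  have h1 : eval Y (map (eval x) (lift t G))
      = ((eval Y).comp (map (eval x))) (G.eval₂ (C.comp C)
        (fun l => C (X l) + C (C t) * X (emb l))) := rfl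
  rw [h1, eval₂_comp_left]
  have h2 : ((eval Y).comp (map (eval x))).comp ((C : MvPolynomial (Fin (n + 1)) ℂ →+* _).comp
      (C : ℂ →+* MvPolynomial (Fin (n + 1)) ℂ)) = RingHom.id ℂ := by
    ext <;> simp
  rw [h2]
  have h3 : (((eval Y).comp (map (eval x)) : MvPolynomial (Fin (n + 2 + 1))
      (MvPolynomial (Fin (n + 1)) ℂ) →+* ℂ) ∘ fun l => C (X l) + C (C t) * X (emb l))
      = x + t • fun l => Y (emb l) := by
    funext l
    simp
  rw [h3]
  rfl

/-- the equations for the punctured lines through a point -/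
noncomputable def eqs [DecidableEq κ] [Fintype κ] (F : ι → MvPolynomial (Fin (n + 1)) ℂ)
    (Q : κ → MvPolynomial (Fin (n + 1)) ℂ) (d : κ → ℕ) (l : Fin (n + 1)) (T : Finset κ) :
    Fin 3 ⊕ (ι × ℂ) ⊕ (κ × ℂ) → MvPolynomial (Fin (n + 2 + 1)) (MvPolynomial (Fin (n + 1)) ℂ)
  | .inl 0 => X (emb l)
  | .inl 1 => if T = ∅ then X (iu n) else 0
  | .inl 2 => if T = Finset.univ then X (iw n) else 0
  | .inr (.inl (i, t)) => lift t (F i)
  | .inr (.inr (j, t)) => lift t (Q j)
      - C (Q j) * (1 + C (C t) * X (if j ∈ T then iu n else iw n)) ^ d j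

theorem limit_pow {d : ℕ} {G : MvPolynomial (Fin (n + 1)) ℂ} (hG : G.IsHomogeneous d)
    (x y : Fin (n + 1) → ℂ) (u : ℂ) (h : ∀ t : ℂ, eval (x + t • y) G = eval x G * (1 + t * u) ^ d)
    (s t : ℂ) : eval (s • x + t • y) G = eval x G * (s + t * u) ^ d := by
  have h1 : ∀ s t : ℂ, s ≠ 0 → eval (s • x + t • y) G = eval x G * (s + t * u) ^ d := by
    intro s t hs
    have : s • x + t • y = s • (x + (t / s) • y) := by
      rw [smul_add, smul_smul]
      congr 2
      field_simp
    rw [this, eval_smul_hom hG, h]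
    have : s + t * u = s * (1 + t / s * u) := by field_simp
    rw [this, mul_pow]
    ring
  by_cases hs : s = 0
  · have hcont : Continuous (fun s : ℂ => eval (s • x + t • y) G) := by
      have : (fun s : ℂ => eval (s • x + t • y) G)
          = fun s => ∑ α ∈ G.support, G.coeff α * ∏ j, (s • x + t • y) j ^ α j := by
        funext s
        rw [eval_eq']
      rw [this]
      refine continuous_finset_sum _ fun α _ => Continuous.mul continuous_const ?_
      refine continuous_finset_prod _ fun j _ => Continuous.pow ?_ _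
      simp only [Pi.add_apply, Pi.smul_apply, smul_eq_mul]
      fun_prop
    have h2 : (fun s : ℂ => eval (s • x + t • y) G) = fun s => eval x G * (s + t * u) ^ d := by
      apply Continuous.ext_on (dense_compl_singleton (0 : ℂ)) hcont (by fun_prop)
      intro s hs
      exact h1 s t hs
    exact congrFun h2 s
  · exact h1 s t hs

theorem puncture_zero {d : ℕ} (hd : 0 < d) {a u : ℂ} (ha : a ≠ 0)
    (h : ∀ t : ℂ, a = a * (1 + t * u) ^ d) : u = 0 := by
  by_contra hu
  apply ha
  rw [h (-1 / u)]
  have : 1 + -1 / u * u = 0 := by field_simp; ring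
  rw [this, zero_pow hd.ne', mul_zero]

end Pool.Agent.H159R3.WarLog
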