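import Pool.Agent.H159R3.War.Closed
import Pool.Agent.H159R3.Lang.Line

/-!
Entire curves in varieties cut out by forms of small Waring rank.
-/

set_option autoImplicit false

namespace Pool.Agent.H159R3.War

open MvPolynomial Pool.Agent.H159R3.GGL

variable {n : ℕ} {ι : Type}

/-- `F` is a sum of `s` powers `ℓ ^ d` of linear forms with `(s - 1) ^ 2 ≤ d`. -/
def SmallWaring (F : MvPolynomial (Fin (n + 1)) ℂ) : Prop :=
  ∃ (d s : ℕ) (ℓ : Fin s → Fin (n + 1) → ℂ), 0 < d ∧ (s - 1) ^ 2 ≤ d ∧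
    F = ∑ k, (∑ j, C (ℓ k j) * X j) ^ d

theorem SmallWaring.hom {F : MvPolynomial (Fin (n + 1)) ℂ} (h : SmallWaring F) :
    ∃ d, F.IsHomogeneous d := by
  obtain ⟨d, s, ℓ, _, _, rfl⟩ := h
  refine ⟨d, ?_⟩
  apply IsHomogeneous.sum
  intro k _
  have h1 : (∑ j, C (ℓ k j) * X j : MvPolynomial (Fin (n + 1)) ℂ).IsHomogeneous 1 := by
    apply IsHomogeneous.sum
    intro j _
    have := (isHomogeneous_C (Fin (n + 1)) (ℓ k j)).mul (isHomogeneous_X ℂ j)
    simpa using this
  have := h1.pow d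
  simpa using this

theorem span_in {F : MvPolynomial (Fin (n + 1)) ℂ} (h : SmallWaring F)
    (f : ℂ → Fin (n + 1) → ℂ) (hf : Differentiable ℂ f) (hfF : ∀ z, eval (f z) F = 0)
    (s t z1 z2 : ℂ) : eval (s • f z1 + t • f z2) F = 0 := by
  obtain ⟨d, m, ℓ, hd, hm, hF⟩ := h
  exact Lang.waring_span (RingHom.id ℂ) F hd ⟨m, ℓ, hm, by rw [map_id]; exact hF⟩ f hf hfF s t z1 z2

theorem line_curve (F : ι → MvPolynomial (Fin (n + 1)) ℂ) {x q : Fin (n + 1) → ℂ}
    (h : LineIn F x q) : EntireCurve F (fun z => x + z • q) := by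
  refine ⟨?_, ?_, 0, 1, ?_⟩
  · rw [differentiable_pi]
    intro j
    exact (differentiable_const _).add (differentiable_id.mul_const _)
  · intro z
    refine ⟨?_, ?_⟩
    · intro h0
      have h1 := LinearIndependent.pair_iff.mp h.1 1 z (by rw [one_smul]; exact h0)
      exact one_ne_zero h1.1
    · intro i
      have h1 := h.2 i 1 z
      rwa [one_smul] at h1
  · intro c hc
    simp only [zero_smul, add_zero, one_smul] at hc
    have h1 := LinearIndependent.pair_iff.mp h.1 (1 - c) (-c) (by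
      rw [sub_smul, neg_smul, one_smul]
      nth_rewrite 1 [hc]
      rw [smul_add]
      abel)
    have h2 : c = 0 := neg_eq_zero.mp h1.2
    rw [h2, sub_zero] at h1
    exact one_ne_zero h1.1

/-- an entire curve has another point that is independent of a given one -/
theorem other (F : ι → MvPolynomial (Fin (n + 1)) ℂ) {f : ℂ → Fin (n + 1) → ℂ}
    (hf : EntireCurve F f) (z : ℂ) : ∃ w, LinearIndependent ℂ ![f z, f w] := by
  obtain ⟨-, hfX, z1, w1, hzw⟩ := hf
  have hf0 : ∀ z, f z ≠ 0 := fun z => (hfX z).1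
  by_contra hcon
  push Not at hcon
  have h1 : ∀ w, ∃ a : ℂ, f w = a • f z := by
    intro w
    have h2 := hcon w
    rw [LinearIndependent.pair_iff] at h2
    push Not at h2
    obtain ⟨s, t, hst, hne⟩ := h2
    have ht : t ≠ 0 := by
      intro ht
      rw [ht, zero_smul, add_zero] at hst
      exact hne ((smul_eq_zero.mp hst).resolve_right (hf0 z)) ht
    refine ⟨-(s / t), ?_⟩
    have h3 : t • f w = -(s • f z) := eq_neg_of_add_eq_zero_right hst
    have h4 : f w = t⁻¹ • (t • f w) := by rw [smul_smul, inv_mul_cancel₀ ht, one_smul]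
    rw [h4, h3, smul_neg, smul_smul, neg_smul, div_eq_inv_mul]
  obtain ⟨a, ha⟩ := h1 z1
  obtain ⟨b, hb⟩ := h1 w1
  have hb0 : b ≠ 0 := by
    intro h0
    apply hf0 w1
    rw [hb, h0, zero_smul]
  apply hzw (a / b)
  rw [ha, hb, smul_smul]
  congr 1
  field_simp

theorem curve_on_line (F : ι → MvPolynomial (Fin (n + 1)) ℂ) (hF : ∀ i, SmallWaring (F i))
    {f : ℂ → Fin (n + 1) → ℂ} (hf : EntireCurve F f) (z : ℂ) : ∃ q, LineIn F (f z) q := by
  obtain ⟨w, hw⟩ := other F hf z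
  exact ⟨f w, hw, fun i s t => span_in (hF i) f hf.1 (fun z => (hf.2.1 z).2 i) s t z w⟩

/-- The pseudo-Brody hyperbolic varieties of this kind are those not covered by lines. -/
theorem main (F : ι → MvPolynomial (Fin (n + 1)) ℂ) (hF : ∀ i, SmallWaring (F i)) :
    PseudoBrody F ↔ ∃ x ∈ Pts F, ∀ q, ¬ LineIn F x q := by
  constructor
  · rintro ⟨G, -, ⟨x1, hx1, hx1G⟩, hG⟩
    refine ⟨x1, hx1, fun q hq => hx1G ?_⟩
    have h1 := hG _ (line_curve F hq) 0
    simpa using h1
  · rintro ⟨x0, hx0, hno⟩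
    obtain ⟨G, hGd, hG0, hG⟩ := closed_at F (fun i => (hF i).hom) x0 hx0.1 hno
    refine ⟨G, hGd, ⟨x0, hx0, hG0⟩, fun f hf z => ?_⟩
    obtain ⟨q, hq⟩ := curve_on_line F hF hf z
    exact hG _ q hq

end Pool.Agent.H159R3.War
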